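import Pool.Agent.Lib_helper57.MinHomeo.Defs

/-!
# GP: polygonal paths in general position
-/

open Set Metric Topology

namespace Pool.Agent.MinHomeo

/-- A point of a ball outside all planes spanned by points of a countable set. -/
theorem gp_avoid {E : Type} [NormedAddCommGroup E] [NormedSpace ℝ E] [FiniteDimensional ℝ E]
    (hE : 3 ≤ Module.finrank ℝ E) (C : Set E) (hC : C.Countable) (z : E) (r : ℝ) (hr : 0 < r) :
    ∃ w, dist w z < r ∧ ∀ p ∈ C, ∀ q ∈ C, ∀ s ∈ C, w ∉ affineSpan ℝ {p, q, s} := by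
  have key : ∀ p q s : E, affineSpan ℝ {p, q, s} ≠ (⊤ : AffineSubspace ℝ E) := by
    intro p q s h
    have h1 : Module.finrank ℝ (vectorSpan ℝ (Set.range ![p, q, s])) ≤ 2 :=
      finrank_vectorSpan_range_le ℝ ![p, q, s] (n := 2) (by simp)
    have h2 : Set.range ![p, q, s] = {p, q, s} := by
      ext x
      simp only [Matrix.range_cons, Matrix.range_empty, Set.union_empty, Set.mem_union,
        Set.mem_singleton_iff, Set.mem_insert_iff]
    rw [h2, ← direction_affineSpan, h, AffineSubspace.direction_top, finrank_top] at h1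
    omega
  have hcl : ∀ p q s : E, IsClosed (affineSpan ℝ {p, q, s} : Set E) := fun p q s =>
    AffineSubspace.closed_of_finiteDimensional _
  have hint : ∀ p q s : E, interior (affineSpan ℝ {p, q, s} : Set E) = ∅ := by
    intro p q s
    by_contra hne
    have hne' : (interior (affineSpan ℝ {p, q, s} : Set E)).Nonempty :=
      Set.nonempty_iff_ne_empty.2 hne
    have h1 := isOpen_interior.affineSpan_eq_top hne'
    apply key p q s
    rw [eq_top_iff, ← h1]
    exact affineSpan_le.2 interior_subset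
  have hdense : Dense (⋂ t ∈ C ×ˢ C ×ˢ C, ((affineSpan ℝ {t.1, t.2.1, t.2.2} : Set E)ᶜ)) := by
    apply dense_biInter_of_isOpen
    · intro t _
      exact (hcl _ _ _).isOpen_compl
    · exact hC.prod (hC.prod hC)
    · intro t _
      rw [← interior_eq_empty_iff_dense_compl]
      exact hint _ _ _
  obtain ⟨w, hw, hw'⟩ := hdense.exists_dist_lt z hr
  refine ⟨w, by rwa [dist_comm], fun p hp q hq s hs => ?_⟩
  have := Set.mem_iInter₂.1 hw (p, q, s) ⟨hp, hq, hs⟩
  exact this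

/-- Sequential choice of points in general position with respect to vertical translations. -/
theorem gp_seq {X : Type} [NormedAddCommGroup X] [NormedSpace ℝ X] [FiniteDimensional ℝ X]
    (hX : 1 < Module.finrank ℝ X) (L : Set ℝ) (hL : L.Countable) (z : ℕ → X × ℝ) (r : ℝ)
    (hr : 0 < r) :
    ∃ y : ℕ → X × ℝ, y 0 = (0, 0) ∧ ∀ j, dist (y (j + 1)) (z (j + 1)) < r ∧
      ∀ p q s : X × ℝ, (∃ i ≤ j, ∃ l ∈ L, p = y i + (0, l)) → (∃ i ≤ j, ∃ l ∈ L, q = y i + (0, l)) →
        (∃ i ≤ j, ∃ l ∈ L, s = y i + (0, l)) → y (j + 1) ∉ affineSpan ℝ {p, q, s} := by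
  have hE : 3 ≤ Module.finrank ℝ (X × ℝ) := by
    rw [Module.finrank_prod, Module.finrank_self]
    omega
  -- choice of the next point
  have hch : ∀ (S : Finset (X × ℝ)) (j : ℕ), ∃ w : X × ℝ, dist w (z j) < r ∧
      ∀ p q s : X × ℝ, (∃ u ∈ S, ∃ l ∈ L, p = u + (0, l)) → (∃ u ∈ S, ∃ l ∈ L, q = u + (0, l)) →
        (∃ u ∈ S, ∃ l ∈ L, s = u + (0, l)) → w ∉ affineSpan ℝ {p, q, s} := by
    intro S j
    have hC : ((fun t : (X × ℝ) × ℝ => t.1 + (0, t.2)) '' ((S : Set (X × ℝ)) ×ˢ L)).Countable :=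
      ((S.countable_toSet).prod hL).image _
    obtain ⟨w, hw, hw'⟩ := gp_avoid hE _ hC (z j) r hr
    refine ⟨w, hw, ?_⟩
    rintro p q s ⟨u, hu, l, hl, rfl⟩ ⟨u', hu', l', hl', rfl⟩ ⟨u'', hu'', l'', hl'', rfl⟩
    exact hw' _ ⟨(u, l), ⟨hu, hl⟩, rfl⟩ _ ⟨(u', l'), ⟨hu', hl'⟩, rfl⟩ _ ⟨(u'', l''), ⟨hu'', hl''⟩, rfl⟩
  choose g hg1 hg2 using hch
  classical
  let st : ℕ → Finset (X × ℝ) × (X × ℝ) := fun n =>
    Nat.rec (({(0, 0)} : Finset (X × ℝ)), ((0, 0) : X × ℝ))
      (fun j s => (insert (g s.1 (j + 1)) s.1, g s.1 (j + 1))) n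
  have st0 : st 0 = ({(0, 0)}, (0, 0)) := rfl
  have sts : ∀ j, st (j + 1) = (insert (g (st j).1 (j + 1)) (st j).1, g (st j).1 (j + 1)) :=
    fun j => rfl
  have hmem : ∀ j, (st j).2 ∈ (st j).1 := by
    intro j
    cases j with
    | zero => rw [st0]; simp
    | succ n => rw [sts]; simp
  have hmono : ∀ j i, i ≤ j → (st i).2 ∈ (st j).1 := by
    intro j
    induction j with
    | zero =>
      intro i hi
      obtain rfl : i = 0 := by omega
      exact hmem 0
    | succ n ih =>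
      intro i hi
      rcases Nat.lt_or_ge n i with h | h
      · have hi' : i = n + 1 := by omega
        subst hi'
        exact hmem (n + 1)
      · rw [sts]
        exact Finset.mem_insert_of_mem (ih i h)
  refine ⟨fun n => (st n).2, rfl, fun j => ⟨?_, ?_⟩⟩
  · show dist (st (j + 1)).2 _ < r
    rw [sts]
    exact hg1 _ _
  · intro p q s hp hq hs
    show (st (j + 1)).2 ∉ _
    rw [sts]
    apply hg2
    · obtain ⟨i, hi, l, hl, rfl⟩ := hp
      exact ⟨_, hmono j i hi, l, hl, rfl⟩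
    · obtain ⟨i, hi, l, hl, rfl⟩ := hq
      exact ⟨_, hmono j i hi, l, hl, rfl⟩
    · obtain ⟨i, hi, l, hl, rfl⟩ := hs
      exact ⟨_, hmono j i hi, l, hl, rfl⟩

theorem gp_line {E : Type} [NormedAddCommGroup E] [NormedSpace ℝ E] {A B q s w : E}
    (h1 : w ∈ segment ℝ A B) (h2 : w ∈ segment ℝ q s) (hw : w ≠ A) :
    B ∈ affineSpan ℝ {A, q, s} := by
  rw [segment_eq_image_lineMap] at h1 h2
  obtain ⟨t, -, rfl⟩ := h1
  obtain ⟨t', -, ht'⟩ := h2
  have ht : t ≠ 0 := by
    rintro rfl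
    apply hw
    simp
  have hA : A ∈ affineSpan ℝ {A, q, s} := subset_affineSpan ℝ _ (by simp)
  have hq : q ∈ affineSpan ℝ {A, q, s} := subset_affineSpan ℝ _ (by simp)
  have hs : s ∈ affineSpan ℝ {A, q, s} := subset_affineSpan ℝ _ (by simp)
  have hw' : AffineMap.lineMap A B t ∈ affineSpan ℝ {A, q, s} := by
    rw [← ht']
    exact AffineMap.lineMap_mem _ hq hs
  have hB : B = AffineMap.lineMap A (AffineMap.lineMap A B t) t⁻¹ := by
    simp only [AffineMap.lineMap_apply, vsub_eq_sub, vadd_eq_add, add_sub_cancel_right, smul_smul]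
    rw [inv_mul_cancel₀ ht, one_smul, sub_add_cancel]
  rw [hB]
  exact AffineMap.lineMap_mem _ hA hw'

theorem gp_seg_mem {E : Type} [NormedAddCommGroup E] [NormedSpace ℝ E] {q s w : E} (A : E)
    (h2 : w ∈ segment ℝ q s) : w ∈ affineSpan ℝ {A, q, s} := by
  rw [segment_eq_image_lineMap] at h2
  obtain ⟨t', -, rfl⟩ := h2
  exact AffineMap.lineMap_mem _ (subset_affineSpan ℝ _ (by simp)) (subset_affineSpan ℝ _ (by simp))

theorem gp_seg_add {E : Type} [NormedAddCommGroup E] [NormedSpace ℝ E] {q s w : E} (v : E)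
    (h : w ∈ segment ℝ q s) : w + v ∈ segment ℝ (q + v) (s + v) := by
  obtain ⟨a, b, ha, hb, hab, rfl⟩ := h
  refine ⟨a, b, ha, hb, hab, ?_⟩
  have : v = a • v + b • v := by rw [← add_smul, hab, one_smul]
  rw [smul_add, smul_add]
  nth_rewrite 3 [this]
  abel


theorem gp_seg_inj {X : Type} [NormedAddCommGroup X] [NormedSpace ℝ X] {A B p p' : X × ℝ}
    (hAB : A.1 ≠ B.1) (hp : p ∈ segment ℝ A B) (hp' : p' ∈ segment ℝ A B) (h : p.1 = p'.1) :
    p = p' := by
  rw [segment_eq_image_lineMap] at hp hp'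
  obtain ⟨t, -, rfl⟩ := hp
  obtain ⟨t', -, rfl⟩ := hp'
  simp only [AffineMap.lineMap_apply, vsub_eq_sub, vadd_eq_add, Prod.fst_add, Prod.smul_fst,
    Prod.fst_sub, add_left_inj] at h
  have h2 : (t - t') • (B.1 - A.1) = 0 := by rw [sub_smul, h, sub_self]
  rcases smul_eq_zero.1 h2 with h3 | h3
  · rw [sub_eq_zero.1 h3]
  · exact absurd (sub_eq_zero.1 h3).symm hAB

/-- The combinatorial core. -/
theorem gp_core {X : Type} [NormedAddCommGroup X] [NormedSpace ℝ X] (L : Set ℝ) (a : ℝ) (T : ℕ)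
    (y : ℕ → X × ℝ) (hT : 3 ≤ T) (hy0 : y 0 = (0, 0)) (hyT : y T = (0, a)) (h0 : (0 : ℝ) ∈ L)
    (h1 : (1 : ℝ) ∈ L) (ha : a ∈ L)
    (hg : ∀ j, j + 1 < T → ∀ p q s : X × ℝ, (∃ i ≤ j, ∃ l ∈ L, p = y i + (0, l)) →
      (∃ i ≤ j, ∃ l ∈ L, q = y i + (0, l)) → (∃ i ≤ j, ∃ l ∈ L, s = y i + (0, l)) →
      y (j + 1) ∉ affineSpan ℝ {p, q, s}) :
    (∀ i < T, ∀ j ≤ i, ∀ l ∈ L, l ≠ 0 → ¬ (i + 1 = T ∧ j = 0 ∧ l = a) →
        ∀ p ∈ segment ℝ (y i) (y (i + 1)), ∀ p' ∈ segment ℝ (y j) (y (j + 1)),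
          p ≠ p' + (0, l)) ∧
      (∀ i < T, 1 ≤ i → a ≠ 0 → ((0 : X), (0 : ℝ)) ∉ segment ℝ (y i) (y (i + 1))) := by
  have self : ∀ i j, i ≤ j → ∃ i' ≤ j, ∃ l ∈ L, y i = y i' + (0, l) := by
    intro i j hij
    refine ⟨i, hij, 0, h0, ?_⟩
    rw [show ((0 : X), (0 : ℝ)) = 0 from rfl, add_zero]
  have e1 : ∀ j, ∃ i' ≤ j, ∃ l ∈ L, ((0 : X), (1 : ℝ)) = y i' + (0, l) := by
    intro j
    refine ⟨0, Nat.zero_le _, 1, h1, ?_⟩
    rw [hy0, Prod.mk_add_mk, add_zero, zero_add]
  have ea : ∀ j, ∃ i' ≤ j, ∃ l ∈ L, y T = y i' + (0, l) := by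
    intro j
    refine ⟨0, Nat.zero_le _, a, ha, ?_⟩
    rw [hy0, hyT, Prod.mk_add_mk, add_zero, zero_add]
  -- no point is a combination of the vertical axis and the previous point
  have D2' : ∀ i j, i ≤ j → j + 1 < T → ∀ c : ℝ, (y (j + 1)).1 ≠ c • (y i).1 := by
    intro i j hij hj c hc
    refine hg j hj (y 0) (0, 1) (y i) (self _ _ (Nat.zero_le _)) (e1 _) (self _ _ hij) ?_
    set S := affineSpan ℝ {y 0, ((0 : X), (1 : ℝ)), y i} with hS
    have m0 : y 0 ∈ S := subset_affineSpan ℝ _ (by simp)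
    have m1 : ((0 : X), (1 : ℝ)) ∈ S := subset_affineSpan ℝ _ (by simp)
    have m2 : y i ∈ S := subset_affineSpan ℝ _ (by simp)
    have m3 : c • (y i -ᵥ y 0) +ᵥ y 0 ∈ S := S.smul_vsub_vadd_mem c m2 m0 m0
    have m4 := S.smul_vsub_vadd_mem ((y (j + 1)).2 - c * (y i).2) m1 m0 m3
    convert m4 using 1
    rw [hy0]
    ext
    · simp [hc]
    · simp
  have D1 : ∀ j, 1 ≤ j → j < T → (y j).1 ≠ 0 := by
    intro j hj hjT h
    obtain ⟨k, rfl⟩ : ∃ k, j = k + 1 := ⟨j - 1, by omega⟩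
    exact D2' 0 k (Nat.zero_le _) hjT 0 (by rw [h, zero_smul])
  have D2 : ∀ j, j + 1 < T → ∀ c : ℝ, (y (j + 1)).1 ≠ c • (y j).1 := fun j hj c =>
    D2' j j le_rfl hj c
  have D3 : ∀ j < T, (y j).1 ≠ (y (j + 1)).1 := by
    intro j hj h
    rcases Nat.lt_or_ge (j + 1) T with h' | h'
    · exact D2 j h' 1 (by rw [one_smul, h])
    · have hT' : j + 1 = T := by omega
      apply D1 j (by omega) hj
      rw [h, hT', hyT]
  have D4a : ∀ j, 1 ≤ j → j + 1 < T → ∀ p ∈ segment ℝ (y j) (y (j + 1)), p.1 ≠ 0 := by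
    rintro j hj hjT p ⟨α, β, hα, hβ, hαβ, rfl⟩ h
    simp only [Prod.fst_add, Prod.smul_fst] at h
    by_cases hb : β = 0
    · subst hb
      rw [add_zero] at hαβ
      rw [hαβ, one_smul, zero_smul, add_zero] at h
      exact D1 j hj (by omega) h
    · refine D2 j hjT (-(β⁻¹ * α)) ?_
      have h2 : β • (y (j + 1)).1 = -(α • (y j).1) := by
        rw [eq_neg_iff_add_eq_zero, add_comm]
        exact h
      calc (y (j + 1)).1 = β⁻¹ • (β • (y (j + 1)).1) := by
            rw [smul_smul, inv_mul_cancel₀ hb, one_smul]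
        _ = -(β⁻¹ * α) • (y j).1 := by
            rw [h2, smul_neg, smul_smul, neg_smul]
  have D4b : ∀ p ∈ segment ℝ (y 0) (y 1), p.1 = 0 → p = (0, 0) := by
    intro p hp h
    refine gp_seg_inj (D3 0 (by omega)) hp ?_ ?_
    · rw [← hy0]
      exact left_mem_segment ℝ _ _
    · rw [h]
  have D4c : ∀ i, i + 1 = T → ∀ p ∈ segment ℝ (y i) (y (i + 1)), p.1 = 0 → p = (0, a) := by
    intro i hi p hp h
    refine gp_seg_inj (D3 i (by omega)) hp ?_ ?_
    · rw [← hyT, ← hi]
      exact right_mem_segment ℝ _ _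
    · rw [h]
  constructor
  · intro i hi j hji l hl hl0 hex p hp p' hp' hpp
    have hfst : p.1 = p'.1 := by rw [hpp, Prod.fst_add, add_zero]
    have hne : p ≠ p' := by
      intro h
      rw [← h] at hpp
      have := congrArg Prod.snd hpp
      simp at this
      exact hl0 this
    have hseg : p ∈ segment ℝ (y j + (0, l)) (y (j + 1) + (0, l)) := by
      rw [hpp]
      exact gp_seg_add _ hp'
    rcases Nat.eq_or_lt_of_le hji with hji' | hji'
    · subst hji'
      exact hne (gp_seg_inj (D3 j hi) hp hp' hfst)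
    rcases Nat.lt_or_ge (i + 1) T with hiT | hiT
    · by_cases hpi : p = y i
      · rcases Nat.lt_or_ge (j + 1) i with hj1 | hj1
        · obtain ⟨k, rfl⟩ : ∃ k, i = k + 1 := ⟨i - 1, by omega⟩
          refine hg k (by omega) (y 0) _ _ (self _ _ (Nat.zero_le _)) ⟨j, by omega, l, hl, rfl⟩
            ⟨j + 1, by omega, l, hl, rfl⟩ ?_
          rw [← hpi]
          exact gp_seg_mem _ hseg
        · have hj2 : i = j + 1 := by omega
          subst hj2
          apply hne
          refine gp_seg_inj (D3 j (by omega)) ?_ hp' hfst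
          rw [hpi]
          exact right_mem_segment ℝ _ _
      · exact hg i hiT (y i) _ _ (self _ _ le_rfl) ⟨j, by omega, l, hl, rfl⟩
          ⟨j + 1, by omega, l, hl, rfl⟩ (gp_line hp hseg hpi)
    · have hiT' : i + 1 = T := by omega
      rcases Nat.lt_or_ge (j + 1) i with hj1 | hj1
      · by_cases hpT : p = y (i + 1)
        · have hp0 : p'.1 = 0 := by
            rw [← hfst, hpT, hiT', hyT]
          rcases Nat.eq_zero_or_pos j with hj0 | hj0
          · subst hj0
            have h2 := D4b p' hp' hp0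
            apply hex
            refine ⟨hiT', rfl, ?_⟩
            rw [h2, hpT, hiT', hyT] at hpp
            have := congrArg Prod.snd hpp
            simp at this
            exact this.symm
          · exact D4a j hj0 (by omega) p' hp' hp0
        · obtain ⟨k, rfl⟩ : ∃ k, i = k + 1 := ⟨i - 1, by omega⟩
          rw [segment_symm] at hp
          refine hg k (by omega) (y (k + 1 + 1)) _ _ ?_ ⟨j, by omega, l, hl, rfl⟩
            ⟨j + 1, by omega, l, hl, rfl⟩ (gp_line hp hseg hpT)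
          rw [hiT']
          exact ea k
      · have hj2 : i = j + 1 := by omega
        subst hj2
        obtain ⟨α, β, hα, hβ, hαβ, rfl⟩ := hp
        obtain ⟨α', β', hα', hβ', hαβ', rfl⟩ := hp'
        have hj0 : 1 ≤ j := by omega
        rw [hiT', hyT] at hfst
        simp only [Prod.fst_add, Prod.smul_fst, smul_zero, add_zero] at hfst
        -- hfst : α • (y (j+1)).1 = α' • (y j).1 + β' • (y (j+1)).1
        have h3 : (α - β') • (y (j + 1)).1 = α' • (y j).1 := by
          rw [sub_smul, hfst]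
          abel
        have h4 : α - β' = 0 := by
          by_contra hne'
          refine D2 j (by omega) ((α - β')⁻¹ * α') ?_
          rw [mul_smul, ← h3, smul_smul, inv_mul_cancel₀ hne', one_smul]
        rw [h4, zero_smul] at h3
        rcases smul_eq_zero.1 h3.symm with h5 | h5
        · apply hne
          have hβ1 : β' = 1 := by linarith
          have hα1 : α = 1 := by linarith
          have hβ0 : β = 0 := by linarith
          rw [h5, hβ1, hα1, hβ0]
          simp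
        · exact D1 j hj0 (by omega) h5
  · intro i hi hi1 ha0 hmem
    rcases Nat.lt_or_ge (i + 1) T with hiT | hiT
    · exact D4a i hi1 hiT _ hmem rfl
    · have := D4c i (by omega) _ hmem rfl
      apply ha0
      have h2 := congrArg Prod.snd this
      exact h2.symm


theorem gp_cancel {X : Type} [NormedAddCommGroup X] [NormedSpace ℝ X] (p : X × ℝ) (l : ℝ) :
    p + (0, l) + (0, -l) = p := by
  ext <;> simp

theorem gp (X : Type) [NormedAddCommGroup X] [NormedSpace ℝ X] [FiniteDimensional ℝ X]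
    (h : 1 < Module.finrank ℝ X) : GP_Stmt X := by
  intro P a Λ δ hP hΛ ha hδ hJ
  obtain ⟨γ, hγ⟩ := hJ
  obtain ⟨ρ, hρ, hρP⟩ := (isCompact_range γ.continuous).exists_thickening_subset_open hP
    (by rintro _ ⟨t, rfl⟩; exact hγ t)
  set r : ℝ := min ρ δ / 3 with hr
  have hmin : 0 < min ρ δ := lt_min hρ hδ
  have hr0 : 0 < r := by positivity
  have hrρ : 3 * r ≤ ρ := by
    have := min_le_left ρ δ
    rw [hr]; linarith
  have hrδ : 3 * r ≤ δ := by
    have := min_le_right ρ δ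
    rw [hr]; linarith
  have huc := CompactSpace.uniformContinuous_of_continuous γ.continuous
  obtain ⟨η, hη, hηγ⟩ := Metric.uniformContinuous_iff.1 huc r hr0
  obtain ⟨n₀, hn₀⟩ := exists_nat_one_div_lt hη
  obtain ⟨n, hn3, hnn⟩ : ∃ n : ℕ, 3 ≤ n ∧ n₀ + 1 ≤ n := ⟨n₀ + 3, by omega, by omega⟩
  have hn0 : (0 : ℝ) < n := by
    have : 0 < n := by omega
    exact_mod_cast this
  have hnη : 1 / (n : ℝ) < η := by
    refine lt_of_le_of_lt ?_ hn₀
    apply one_div_le_one_div_of_le (by positivity)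
    exact_mod_cast hnn
  let z : ℕ → X × ℝ := fun i => γ (Set.projIcc 0 1 zero_le_one ((i : ℝ) / n))
  have hz0 : z 0 = (0, 0) := by
    show γ (Set.projIcc 0 1 zero_le_one (((0 : ℕ) : ℝ) / n)) = _
    rw [Nat.cast_zero, zero_div, Set.projIcc_left]
    exact γ.source
  have hzn : z n = (0, a) := by
    show γ (Set.projIcc 0 1 zero_le_one ((n : ℝ) / n)) = _
    rw [div_self hn0.ne', Set.projIcc_right]
    exact γ.target
  have hzz : ∀ i, dist (z i) (z (i + 1)) < r := by
    intro i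
    apply hηγ
    refine lt_of_le_of_lt ((LipschitzWith.projIcc zero_le_one).dist_le_mul _ _) ?_
    rw [NNReal.coe_one, one_mul, Real.dist_eq]
    have : (i : ℝ) / n - ((i + 1 : ℕ) : ℝ) / n = -(1 / n) := by
      push_cast
      field_simp
      ring
    rw [this, abs_neg, abs_of_pos (by positivity)]
    exact hnη
  set L : Set ℝ := (Λ ∪ (fun x => -x) '' Λ) ∪ {0, 1, a, -a} with hL
  have hLc : L.Countable := by
    refine (hΛ.union (hΛ.image _)).union ?_
    exact (Set.toFinite _).countable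
  obtain ⟨y, hy0, hy⟩ := gp_seq h L hLc z r hr0
  let Y : ℕ → X × ℝ := fun i => if i = n then (0, a) else y i
  have hYn : Y n = (0, a) := if_pos rfl
  have hYne : ∀ i, i ≠ n → Y i = y i := fun i hi => if_neg hi
  have hY0 : Y 0 = (0, 0) := by rw [hYne 0 (by omega), hy0]
  have hYz : ∀ i, i ≤ n → dist (Y i) (z i) < r := by
    intro i hi
    by_cases h0 : i = 0
    · subst h0
      rw [hY0, hz0, dist_self]
      exact hr0
    by_cases h1 : i = n
    · subst h1
      rw [hYn, hzn, dist_self]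
      exact hr0
    rw [hYne i h1]
    obtain ⟨k, rfl⟩ : ∃ k, i = k + 1 := ⟨i - 1, by omega⟩
    exact (hy k).1
  have hg : ∀ j, j + 1 < n → ∀ p q s : X × ℝ, (∃ i ≤ j, ∃ l ∈ L, p = Y i + (0, l)) →
      (∃ i ≤ j, ∃ l ∈ L, q = Y i + (0, l)) → (∃ i ≤ j, ∃ l ∈ L, s = Y i + (0, l)) →
      Y (j + 1) ∉ affineSpan ℝ {p, q, s} := by
    rintro j hj p q s ⟨i, hi, l, hl, rfl⟩ ⟨i', hi', l', hl', rfl⟩ ⟨i'', hi'', l'', hl'', rfl⟩
    rw [hYne (j + 1) (by omega), hYne i (by omega), hYne i' (by omega), hYne i'' (by omega)]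
    exact (hy j).2 _ _ _ ⟨i, hi, l, hl, rfl⟩ ⟨i', hi', l', hl', rfl⟩ ⟨i'', hi'', l'', hl'', rfl⟩
  obtain ⟨hc1, hc2⟩ := gp_core L a n Y hn3 hY0 hYn (by simp [hL]) (by simp [hL]) (by simp [hL]) hg
  refine ⟨n, Y, hn3, hY0, hYn, ?_, ?_, ?_, ?_, ?_⟩
  · intro i hi
    refine Set.Subset.trans ?_ hρP
    have hsub : segment ℝ (Y i) (Y (i + 1)) ⊆ ball (z i) ρ := by
      apply (convex_ball (z i) ρ).segment_subset
      · rw [mem_ball]
        linarith [hYz i hi.le]
      · rw [mem_ball]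
        have h1 := dist_triangle (Y (i + 1)) (z (i + 1)) (z i)
        have h2 := hYz (i + 1) hi
        have h3 := hzz i
        rw [dist_comm] at h3
        linarith
    intro w hw
    rw [mem_thickening_iff]
    exact ⟨z i, Set.mem_range_self _, hsub hw⟩
  · intro i hi
    have h1 := dist_triangle4 (Y i) (z i) (z (i + 1)) (Y (i + 1))
    have h2 := hYz (i + 1) hi
    rw [dist_comm] at h2
    linarith [hYz i hi.le, hzz i]
  · intro l hl hl0 hla hla' i hi j hj p hp p' hp' hpp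
    rcases Nat.lt_or_ge i j with hij | hij
    · refine hc1 j hj i hij.le (-l) ?_ (neg_ne_zero.2 hl0) ?_ p' hp' p hp ?_
      · left; right
        exact ⟨l, hl, rfl⟩
      · rintro ⟨-, -, h3⟩
        exact hla' (by linarith)
      · rw [hpp, gp_cancel]
    · exact hc1 i hi j hij l (Or.inl (Or.inl hl)) hl0 (fun h => hla h.2.2) p hp p' hp' hpp
  · intro i hi j hj hj1 p hp p' hp' hpp
    rcases Nat.lt_or_ge i j with hij | hij
    · refine hc1 j hj i hij.le (-a) (by simp [hL]) (neg_ne_zero.2 ha) ?_ p' hp' p hp ?_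
      · rintro ⟨-, -, h3⟩
        exact ha (by linarith)
      · rw [hpp, gp_cancel]
    · exact hc1 i hi j hij a (by simp [hL]) ha (fun h => by omega) p hp p' hp' hpp
  · intro i hi hi1
    exact hc2 i hi hi1 ha

end Pool.Agent.MinHomeo
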